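import Pool.Agent.KS6_1.CMO.Core
import Pool.Graph.R_pool_sql_team_seeded_3997aac3.Q18.KZ.All

/-!
# The counterexamples to the question of Kahane and Saias are dense

A CMO function is a completely multiplicative `f` with `∑ f(n) = 0`; `S_f(x) = ∑_{n ≤ x} f(n)`.
The library has one CMO function with `S_f(x) = O(x^(-1/2-c))` (frozen statement `S17468`), a
negative answer to Q1.  If `S_f(x) = o(x^(-θ))` then of course `f(n) = o(n^(-θ))`.  Here we show that
this trivial condition is the only one: there is `θ₁ > 1/2` such that for every `θ` with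
`0 < θ ≤ θ₁` the CMO functions with `S_f(x) = O(x^(-θ-c))`, for some `c > 0`, are DENSE in the space
of all completely multiplicative functions `h` with `h(n) = o(n^(-θ))`, for the norm
`sup_n n^θ |f(n) - h(n)|`, and moreover any finite number of values can be prescribed exactly.  So
for `θ = 1/2` the answer to Q1 is not only negative: the values of a counterexample at any finite
number of primes can be prescribed at will (subject to the necessary condition
`|f(p)| < p^(-1/2)`), and the counterexamples are dense among all functions which satisfy the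
obvious necessary condition `f(n) = o(n^(-1/2))`.  Conversely a limit of functions with
`S_f(x) = o(x^(-θ))` in this norm satisfies `h(n) = o(n^(-θ))`.

Proof.  Let `f₀` be the function of the library, with partial sums `O(x^(-θ₀))`, `θ₀ > 1/2`.  Its
values satisfy `|f₀(n)| ≤ n^(-θ₀)` (apply the trivial bound to the powers of `n`).  Replace its values
at the primes below `y` by those of `h`.  The Dirichlet series is multiplied by a finite product,
whose coefficients `k(d)` have `∑ |k(d)| d^(θ + c) < ∞` if `|h(p)| p^(θ + c) < 1` for the primes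
`p < y`; there is such a `c > 0`, since `|h(p)| p^θ < 1` for a completely multiplicative
`h(n) = o(n^(-θ))`.  So the partial sums of the new function are `O(x^(-θ-c))`.  If `y` is large,
both functions are at most `ε n^(-θ)` at all `n` with a prime factor `≥ y`, and at the other `n` they
are equal.
-/

set_option autoImplicit false

namespace Pool.Agent.Results.MP_768c9c_nt.DenseCounterexamples

open Filter Topology Finset Asymptotics
open Pool.Agent.KS6_1

/-- `f` (only its values at `n ≥ 1` matter) is completely multiplicative -/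
def CompletelyMultiplicative (f : ℕ → ℂ) : Prop :=
  f 1 = 1 ∧ ∀ m n : ℕ, 1 ≤ m → 1 ≤ n → f (m * n) = f m * f n

/-- `f` is a CMO function: completely multiplicative, with `∑ f(n)` convergent to `0` -/
def IsCMO (f : ℕ → ℂ) : Prop :=
  CompletelyMultiplicative f ∧ Tendsto (fun N : ℕ => ∑ n ∈ Icc 1 N, f n) atTop (𝓝 0)

/-- the partial sum `S_f(x) = ∑_{n ≤ x} f(n)` -/
noncomputable def partialSum (f : ℕ → ℂ) (x : ℝ) : ℂ := ∑ n ∈ Icc 1 ⌊x⌋₊, f n

/-- `S_f(x) = O(x^(-θ-c))` for some `c > 0`, for all `x ≥ 1` -/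
def PowerSaving (θ : ℝ) (f : ℕ → ℂ) : Prop :=
  ∃ c C : ℝ, 0 < c ∧ ∀ x : ℝ, 1 ≤ x → ‖partialSum f x‖ ≤ C * x ^ (-θ - c)

/-- the library's function -/
lemma exists_base : ∃ (f : ℕ → ℂ) (c C : ℝ), 0 < c ∧ CMO.CM f ∧ (∀ n, (f n).im = 0) ∧
    ∀ N : ℕ, 1 ≤ N → ‖∑ n ∈ Icc 1 N, f n‖ ≤ C * (N : ℝ) ^ (-(1 / 2 + c)) := by
  obtain ⟨f, c, C, hc, -, h1, hm, hs⟩ := Pool.Agent.Q18.KZ.a_FIN (Pool.Agent.Q18.KZ.a_ENV
    Pool.Agent.Q278.KT.mainp_half Pool.Agent.Q278.KT.mainp_043 Pool.Agent.Q278.KT.mainp_1316)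
  refine ⟨fun n => (f n : ℂ), c, C, hc, ⟨by simp [h1], fun m n h2 h3 => by simp [hm m n h2 h3]⟩,
    fun n => Complex.ofReal_im _, fun N hN => ?_⟩
  have := hs N hN
  rw [← Complex.ofReal_sum, Complex.norm_real, Real.norm_eq_abs]
  rwa [neg_add']

lemma tendsto_of_little (θ : ℝ) (f : ℕ → ℂ)
    (h : (fun n : ℕ => f n) =o[atTop] (fun n : ℕ => (n : ℝ) ^ (-θ))) :
    Tendsto (fun n : ℕ => ‖f n‖ * (n : ℝ) ^ θ) atTop (𝓝 0) := by
  refine (h.norm_left.tendsto_div_nhds_zero).congr' ?_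
  filter_upwards [eventually_gt_atTop 0] with n hn
  have hn' : (0 : ℝ) < n := by exact_mod_cast hn
  rw [Real.rpow_neg hn'.le, div_inv_eq_mul]

lemma little_of_tendsto (θ : ℝ) (f : ℕ → ℂ)
    (h : Tendsto (fun n : ℕ => ‖f n‖ * (n : ℝ) ^ θ) atTop (𝓝 0)) :
    (fun n : ℕ => f n) =o[atTop] (fun n : ℕ => (n : ℝ) ^ (-θ)) := by
  rw [← isLittleO_norm_left, isLittleO_iff_tendsto']
  · refine h.congr' ?_
    filter_upwards [eventually_gt_atTop 0] with n hn
    have hn' : (0 : ℝ) < n := by exact_mod_cast hn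
    rw [Real.rpow_neg hn'.le, div_inv_eq_mul]
  · filter_upwards [eventually_gt_atTop 0] with n hn h0
    have hn' : (0 : ℝ) < n := by exact_mod_cast hn
    exact absurd h0 (by positivity)

/-- the values of a function with `S_f(x) = o(x^(-θ))` -/
lemma term_little (θ : ℝ) (hθ : 0 < θ) (f : ℕ → ℂ)
    (h : partialSum f =o[atTop] (fun x : ℝ => x ^ (-θ))) :
    Tendsto (fun n : ℕ => ‖f n‖ * (n : ℝ) ^ θ) atTop (𝓝 0) := by
  have h1 : Tendsto (fun n : ℕ => ‖∑ k ∈ Icc 1 n, f k‖ * (n : ℝ) ^ θ) atTop (𝓝 0) := by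
    have h2 := h.comp_tendsto (tendsto_natCast_atTop_atTop (R := ℝ))
    refine (h2.norm_left.tendsto_div_nhds_zero).congr' ?_
    filter_upwards [eventually_gt_atTop 0] with n hn
    have hn' : (0 : ℝ) < n := by exact_mod_cast hn
    simp only [Function.comp, partialSum, Nat.floor_natCast]
    rw [Real.rpow_neg hn'.le, div_inv_eq_mul]
  have h3 : Tendsto (fun n : ℕ => ‖∑ k ∈ Icc 1 (n + 1), f k‖ * ((n + 1 : ℕ) : ℝ) ^ θ +
      2 ^ θ * (‖∑ k ∈ Icc 1 n, f k‖ * (n : ℝ) ^ θ)) atTop (𝓝 (0 + 2 ^ θ * 0)) :=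
    (h1.comp (tendsto_add_atTop_nat 1)).add (h1.const_mul _)
  rw [mul_zero, add_zero] at h3
  rw [← tendsto_add_atTop_iff_nat 1]
  refine squeeze_zero' (Eventually.of_forall fun n => by positivity) ?_ h3
  filter_upwards [eventually_ge_atTop 1] with n hn
  have hn1 : (1 : ℝ) ≤ n := by exact_mod_cast hn
  have e : f (n + 1) = (∑ k ∈ Icc 1 (n + 1), f k) - ∑ k ∈ Icc 1 n, f k := by
    rw [Finset.sum_Icc_succ_top (by omega)]
    ring
  have h4 : ((n + 1 : ℕ) : ℝ) ^ θ ≤ 2 ^ θ * (n : ℝ) ^ θ := by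
    rw [← Real.mul_rpow (by norm_num) (by linarith)]
    refine Real.rpow_le_rpow (by positivity) ?_ hθ.le
    push_cast
    linarith
  calc ‖f (n + 1)‖ * ((n + 1 : ℕ) : ℝ) ^ θ
      ≤ (‖∑ k ∈ Icc 1 (n + 1), f k‖ + ‖∑ k ∈ Icc 1 n, f k‖) * ((n + 1 : ℕ) : ℝ) ^ θ := by
        gcongr
        rw [e]
        exact norm_sub_le _ _
    _ ≤ _ := by
        rw [add_mul]
        refine add_le_add le_rfl ?_
        calc ‖∑ k ∈ Icc 1 n, f k‖ * ((n + 1 : ℕ) : ℝ) ^ θ
            ≤ ‖∑ k ∈ Icc 1 n, f k‖ * (2 ^ θ * (n : ℝ) ^ θ) := by gcongr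
          _ = 2 ^ θ * (‖∑ k ∈ Icc 1 n, f k‖ * (n : ℝ) ^ θ) := by ring

/-- **The counterexamples to the question of Kahane and Saias are dense.**  There is `θ₁ > 1/2` with
the following property for every `θ` with `0 < θ ≤ θ₁` (for instance for `θ = 1/2`) and every
completely multiplicative `h`:

1. if `h(n) = o(n^(-θ))` then for all `ε > 0` and all `M` there is a CMO function `f` with
`S_f(x) = O(x^(-θ-c))` for some `c > 0`, with `f(n) = h(n)` for all `n ≤ M`, and with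
`|f(n) - h(n)| ≤ ε n^(-θ)` for all `n ≥ 1`; if `h` is real valued, so is `f`;

2. conversely, if for every `ε > 0` there is a CMO function `f` with `S_f(x) = o(x^(-θ))` and
`|f(n) - h(n)| ≤ ε n^(-θ)` for all `n ≥ 1`, then `h(n) = o(n^(-θ))`. -/
theorem result : ∃ θ₁ : ℝ, 1 / 2 < θ₁ ∧ ∀ θ : ℝ, 0 < θ → θ ≤ θ₁ →
    ∀ h : ℕ → ℂ, CompletelyMultiplicative h →
      ((h =o[atTop] fun n : ℕ => (n : ℝ) ^ (-θ)) →
        ∀ ε : ℝ, 0 < ε → ∀ M : ℕ, ∃ f : ℕ → ℂ, IsCMO f ∧ PowerSaving θ f ∧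
          (∀ n : ℕ, 1 ≤ n → n ≤ M → f n = h n) ∧
          (∀ n : ℕ, 1 ≤ n → ‖f n - h n‖ ≤ ε * (n : ℝ) ^ (-θ)) ∧
          ((∀ n : ℕ, 1 ≤ n → (h n).im = 0) → ∀ n : ℕ, 1 ≤ n → (f n).im = 0)) ∧
      ((∀ ε : ℝ, 0 < ε → ∃ f : ℕ → ℂ, IsCMO f ∧
          (partialSum f =o[atTop] fun x : ℝ => x ^ (-θ)) ∧
          ∀ n : ℕ, 1 ≤ n → ‖f n - h n‖ ≤ ε * (n : ℝ) ^ (-θ)) →
        h =o[atTop] fun n : ℕ => (n : ℝ) ^ (-θ)) := by
  obtain ⟨f₀, c₀, C₀, hc₀, hf₀, hr₀, hS₀⟩ := exists_base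
  refine ⟨1 / 2 + c₀ / 2, by linarith, fun θ hθ hθ1 h hh => ⟨fun hlit ε hε M => ?_, fun H => ?_⟩⟩
  · obtain ⟨f, hf, hfp, hfM, hfc, c, C, hc, hC0, hC⟩ := CMO.dense (1 / 2 + c₀) C₀ f₀ hf₀ hS₀ θ hθ
      (by linarith) h hh (tendsto_of_little θ h hlit) ε hε M
    refine ⟨f, ⟨hf, ?_⟩, ⟨c, C * 2 ^ (θ + c), hc, fun x hx => ?_⟩, hfM, fun n hn => ?_,
      fun hre => CMO.CM.real hf fun p hp => ?_⟩
    · rw [tendsto_zero_iff_norm_tendsto_zero]
      have h3 : Tendsto (fun x : ℝ => x ^ (-(θ + c))) atTop (𝓝 0) :=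
        tendsto_rpow_neg_atTop (by positivity)
      have h4 := (h3.comp (tendsto_natCast_atTop_atTop (R := ℝ))).const_mul C
      rw [mul_zero] at h4
      refine squeeze_zero' (Eventually.of_forall fun N => norm_nonneg _) ?_ h4
      filter_upwards [eventually_ge_atTop 1] with N hN
      exact hC N hN
    · have hfl : 1 ≤ ⌊x⌋₊ := by rwa [Nat.one_le_floor_iff]
      have h3 := hC ⌊x⌋₊ hfl
      have h4 : (1 : ℝ) ≤ ⌊x⌋₊ := by exact_mod_cast hfl
      have h5 : x / 2 ≤ ⌊x⌋₊ := by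
        have := Nat.lt_floor_add_one x
        linarith
      have h6 : (⌊x⌋₊ : ℝ) ^ (-(θ + c)) ≤ (x / 2) ^ (-(θ + c)) :=
        Real.rpow_le_rpow_of_nonpos (by linarith) h5 (by linarith)
      have h7 : (x / 2) ^ (-(θ + c)) = x ^ (-θ - c) * 2 ^ (θ + c) := by
        rw [Real.div_rpow (by linarith) (by norm_num), div_eq_mul_inv, ← Real.rpow_neg (by norm_num),
          neg_neg, neg_add']
      unfold partialSum
      calc ‖∑ n ∈ Icc 1 ⌊x⌋₊, f n‖ ≤ C * (⌊x⌋₊ : ℝ) ^ (-(θ + c)) := h3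
        _ ≤ C * (x ^ (-θ - c) * 2 ^ (θ + c)) := by
            rw [← h7]
            exact mul_le_mul_of_nonneg_left h6 hC0
        _ = C * 2 ^ (θ + c) * x ^ (-θ - c) := by ring
    · have hn0 : (0 : ℝ) < n := by exact_mod_cast hn
      have h1 := hfc n hn
      rw [Real.rpow_neg hn0.le, ← div_eq_mul_inv, le_div_iff₀ (by positivity)]
      exact h1
    · rcases hfp p hp with h1 | h1
      · rw [h1]; exact hre p hp.one_lt.le
      · rw [h1]; exact hr₀ p
  · refine little_of_tendsto θ h ?_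
    rw [Metric.tendsto_atTop]
    intro ε hε
    obtain ⟨f, -, hfl, hfc⟩ := H (ε / 2) (by positivity)
    obtain ⟨N, hN⟩ := ((term_little θ hθ f hfl).eventually_lt_const
      (show (0 : ℝ) < ε / 2 by positivity)).exists_forall_of_atTop
    refine ⟨max N 1, fun n hn => ?_⟩
    have hn1 : 1 ≤ n := (le_max_right _ _).trans hn
    have hn0 : (0 : ℝ) < n := by exact_mod_cast hn1
    have h1 := hN n ((le_max_left _ _).trans hn)
    have h2 := hfc n hn1
    rw [Real.rpow_neg hn0.le, ← div_eq_mul_inv, le_div_iff₀ (by positivity)] at h2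
    rw [Real.dist_eq, sub_zero, abs_of_nonneg (by positivity)]
    calc ‖h n‖ * (n : ℝ) ^ θ ≤ (‖f n - h n‖ + ‖f n‖) * (n : ℝ) ^ θ := by
          gcongr
          have := norm_sub_le (f n) (f n - h n)
          rw [sub_sub_cancel] at this
          linarith
      _ < ε := by rw [add_mul]; linarith

end Pool.Agent.Results.MP_768c9c_nt.DenseCounterexamples
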